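import Mathlib

/-!
# The parity of the 2-rank of the sandpile group of a Cayley graph of `𝔽₂^r`

Let `A` be the Laplacian modulo two: `A(u, v) = a (u + v)`.  For every `s` the matrix
`(u, v) ↦ a (s + u + v)` is `A` with permuted columns, is symmetric, and has all diagonal entries
equal to `a s`.  If `a s = 0` for some `s`, it is alternating, so its rank is even.  Otherwise `A` is
the all ones matrix.
-/

set_option autoImplicit false

namespace Pool.Agent.Results.MP_8ee885_co.ParityLaw

open Finset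

/-- The space `𝔽₂^r`. -/
abbrev Vec (r : ℕ) : Type := Fin r → ZMod 2

/-- `M` is a multiset of nonzero vectors which spans `𝔽₂^r`. -/
def IsGenerator {r : ℕ} (M : Multiset (Vec r)) : Prop :=
  (0 : Vec r) ∉ M ∧ Submodule.span (ZMod 2) {v : Vec r | v ∈ M} = ⊤

/-- The `gcd` of the positive multiplicities. -/
def gcdMult {r : ℕ} (M : Multiset (Vec r)) : ℕ := M.toFinset.gcd fun v => M.count v

/-- The Laplacian of the Cayley graph: `n` on the diagonal and minus the number of `v` in `M` with
`w + v = w'` elsewhere. -/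
def laplacian {r : ℕ} (M : Multiset (Vec r)) : Matrix (Vec r) (Vec r) ℤ :=
  fun w w' => if w = w' then (M.card : ℤ) else -(M.countP (fun v => w + v = w') : ℤ)

/-- The cokernel of the Laplacian. -/
abbrev Coker {r : ℕ} (M : Multiset (Vec r)) : Type :=
  (Vec r → ℤ) ⧸ LinearMap.range (laplacian M).mulVecLin

/-- The sandpile group: the torsion subgroup of the cokernel of the Laplacian. -/
abbrev Sandpile {r : ℕ} (M : Multiset (Vec r)) : Type := AddCommGroup.torsion (Coker M)

/-- The number `d(M)` of even invariant factors of the sandpile group `K`: the dimension over `𝔽₂`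
of `K / 2 K`, that is the logarithm to base two of its order. -/
noncomputable def evenRank {r : ℕ} (M : Multiset (Vec r)) : ℕ :=
  Nat.log 2 (Nat.card (Sandpile M ⧸ (nsmulAddMonoidHom 2 : Sandpile M →+ Sandpile M).range))

/-- The eigenvalue `λ_u = n - ∑ (-1) ^ (u · v_i) = 2 #{i : u · v_i = 1}`. -/
def eigenvalue {r : ℕ} (M : Multiset (Vec r)) (u : Vec r) : ℕ :=
  2 * M.countP (fun v => u ⬝ᵥ v = 1)

/-! ### Alternating matrices over `𝔽₂` -/

section alternating

variable {ι : Type} [Fintype ι] [DecidableEq ι]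

lemma two_eq_zero : (2 : ZMod 2) = 0 := by decide

lemma add_self (x : ZMod 2) : x + x = 0 := by
  revert x
  decide

/-- An alternating matrix over `𝔽₂` of odd size is singular. -/
lemma det_eq_zero (N : Matrix ι ι (ZMod 2)) (hs : ∀ i j, N i j = N j i) (hd : ∀ i, N i i = 0)
    (hodd : ¬ 2 ∣ Fintype.card ι) : N.det = 0 := by
  rw [Matrix.det_apply']
  apply Finset.sum_involution (fun (σ : Equiv.Perm ι) _ => σ⁻¹)
  · intro σ _
    have h1 : ∀ z : ℤˣ, ((z : ℤ) : ZMod 2) = 1 := by
      intro z
      rcases Int.units_eq_one_or z with rfl | rfl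
      · simp
      · decide
    have h2 : ∏ i, N (σ⁻¹ i) i = ∏ i, N (σ i) i := by
      rw [← Equiv.prod_comp σ]
      apply Finset.prod_congr rfl
      intro i _
      rw [hs]
      simp
    rw [h1, h1, h2]
    exact add_self _
  · intro σ _ hne h
    have h1 : σ ^ 2 ^ 1 = 1 := by
      rw [pow_one, pow_two]
      nth_rewrite 1 [← h]
      exact inv_mul_cancel σ
    obtain ⟨a, ha⟩ := Equiv.Perm.exists_fixed_point_of_prime (p := 2) (n := 1) hodd h1
    apply hne
    rw [Finset.prod_eq_zero (Finset.mem_univ a) (by rw [ha]; exact hd a), mul_zero]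
  · intro σ _
    exact Finset.mem_univ _
  · intro σ _
    exact inv_inv σ

omit [DecidableEq ι] in
lemma quad_eq_zero (N : Matrix ι ι (ZMod 2)) (hs : ∀ i j, N i j = N j i) (hd : ∀ i, N i i = 0)
    (x : ι → ZMod 2) : x ⬝ᵥ N.mulVec x = 0 := by
  have h : x ⬝ᵥ N.mulVec x = ∑ p : ι × ι, x p.1 * (N p.1 p.2 * x p.2) := by
    rw [Fintype.sum_prod_type]
    simp only [dotProduct, Matrix.mulVec, Finset.mul_sum]
  rw [h]
  apply Finset.sum_involution (fun (p : ι × ι) _ => p.swap)
  · intro p _
    have : x p.swap.1 * (N p.swap.1 p.swap.2 * x p.swap.2) = x p.1 * (N p.1 p.2 * x p.2) := by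
      simp only [Prod.fst_swap, Prod.snd_swap]
      rw [hs p.2 p.1]
      ring
    rw [this]
    exact add_self _
  · intro p _ hne h
    apply hne
    have : p.1 = p.2 := (congrArg Prod.snd h)
    rw [this, hd]
    ring
  · intro p _
    exact Finset.mem_univ _
  · intro p _
    exact Prod.swap_swap p

/-- The rank of an alternating matrix over `𝔽₂` is even. -/
theorem even_rank (N : Matrix ι ι (ZMod 2)) (hs : ∀ i j, N i j = N j i) (hd : ∀ i, N i i = 0) :
    ∃ ρ : ℕ, Even ρ ∧ Module.finrank (ZMod 2) (LinearMap.ker N.mulVecLin) + ρ =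
      Fintype.card ι := by
  have hN : N.transpose = N := by
    ext i j
    exact hs j i
  obtain ⟨U, hU⟩ := Submodule.exists_isCompl (LinearMap.ker N.mulVecLin)
  refine ⟨Module.finrank (ZMod 2) U, ?_, ?_⟩
  · by_contra hodd
    let b := Module.finBasis (ZMod 2) U
    let G : Matrix (Fin (Module.finrank (ZMod 2) U)) (Fin (Module.finrank (ZMod 2) U)) (ZMod 2) :=
      fun i j => (b i : ι → ZMod 2) ⬝ᵥ N.mulVec (b j)
    have hsym : ∀ x y : ι → ZMod 2, x ⬝ᵥ N.mulVec y = y ⬝ᵥ N.mulVec x := by
      intro x y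
      rw [Matrix.dotProduct_mulVec, ← Matrix.mulVec_transpose, hN, dotProduct_comm]
    have hdet : G.det = 0 := by
      apply det_eq_zero G (fun i j => hsym _ _) (fun i => quad_eq_zero N hs hd _)
      rw [Fintype.card_fin]
      intro h
      exact hodd (even_iff_two_dvd.2 h)
    rw [← Matrix.exists_mulVec_eq_zero_iff] at hdet
    obtain ⟨c, hc, hGc⟩ := hdet
    let u : U := ∑ j, c j • b j
    have hu : (u : ι → ZMod 2) = ∑ j, c j • (b j : ι → ZMod 2) := by
      simp [u]
    have hb : ∀ i, (b i : ι → ZMod 2) ⬝ᵥ N.mulVec u = 0 := by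
      intro i
      have h1 := congrFun hGc i
      simp only [Matrix.mulVec, Pi.zero_apply, G] at h1
      rw [hu]
      rw [← h1]
      change (b i : ι → ZMod 2) ⬝ᵥ N.mulVec (∑ j, c j • (b j : ι → ZMod 2)) =
        ∑ j, ((b i : ι → ZMod 2) ⬝ᵥ N.mulVec (b j)) * c j
      rw [Matrix.mulVec_sum, dotProduct_sum]
      apply Finset.sum_congr rfl
      intro j _
      rw [Matrix.mulVec_smul, dotProduct_smul, smul_eq_mul, mul_comm]
    have hU' : ∀ x : U, (x : ι → ZMod 2) ⬝ᵥ N.mulVec u = 0 := by
      intro x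
      have h1 : (x : ι → ZMod 2) = ∑ j, (b.repr x j) • (b j : ι → ZMod 2) := by
        have h2 := congrArg (fun z : U => (z : ι → ZMod 2)) (b.sum_repr x)
        simp only [Submodule.coe_sum, Submodule.coe_smul] at h2
        exact h2.symm
      rw [h1, sum_dotProduct]
      apply Finset.sum_eq_zero
      intro j _
      rw [smul_dotProduct, hb, smul_zero]
    have hall : ∀ x : ι → ZMod 2, x ⬝ᵥ N.mulVec u = 0 := by
      intro x
      have h1 : x ∈ LinearMap.ker N.mulVecLin ⊔ U := by
        rw [hU.sup_eq_top]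
        trivial
      obtain ⟨y, hy, z, hz, rfl⟩ := Submodule.mem_sup.1 h1
      rw [add_dotProduct, hU' ⟨z, hz⟩, add_zero, hsym]
      have h2 : N.mulVec y = 0 := hy
      rw [h2, dotProduct_zero]
    have hker : (u : ι → ZMod 2) ∈ LinearMap.ker N.mulVecLin := by
      rw [LinearMap.mem_ker]
      change N.mulVec u = 0
      ext i
      have := hall (Pi.single i 1)
      rwa [single_one_dotProduct] at this
    have hzero : (u : ι → ZMod 2) = 0 := by
      have h1 : (u : ι → ZMod 2) ∈ LinearMap.ker N.mulVecLin ⊓ U := ⟨hker, u.2⟩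
      rw [hU.inf_eq_bot] at h1
      exact h1
    have hu0 : u = 0 := Subtype.ext hzero
    apply hc
    have h1 := b.linearIndependent
    rw [Fintype.linearIndependent_iff] at h1
    ext j
    exact h1 c hu0 j
  · have h1 := Submodule.finrank_add_eq_of_isCompl hU
    rw [h1, Module.finrank_fintype_fun_eq_card]

end alternating

/-! ### The 2-torsion of the cokernel of an integer matrix -/

section general

variable {n : Type} [Fintype n]

/-- The kernel modulo two, normalised at `i₀`. -/
abbrev Ker2 (L : Matrix n n ℤ) (i₀ : n) : Type :=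
  {y : n → ZMod 2 // y i₀ = 0 ∧ (L.map (Int.castRingHom (ZMod 2))).mulVec y = 0}

/-- The 2-torsion of the torsion of the cokernel. -/
abbrev Tor2 (L : Matrix n n ℤ) : Type :=
  {x : AddCommGroup.torsion ((n → ℤ) ⧸ LinearMap.range L.mulVecLin) // 2 • x = 0}

theorem tor_to_ker (L : Matrix n n ℤ) (i₀ : n) (h1 : L.mulVec (fun _ => 1) = 0) :
    ∃ f : Tor2 L → Ker2 L i₀, Function.Injective f := by
  have h0 : ∀ x : Tor2 L, ∃ v y : n → ℤ, Submodule.Quotient.mk v =
      (x.1.1 : (n → ℤ) ⧸ LinearMap.range L.mulVecLin) ∧ L.mulVec y = 2 • v ∧ y i₀ = 0 := by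
    rintro ⟨⟨x, hx⟩, h⟩
    obtain ⟨v, rfl⟩ := Submodule.Quotient.mk_surjective _ x
    have h2 : (Submodule.Quotient.mk (2 • v) : (n → ℤ) ⧸ LinearMap.range L.mulVecLin) = 0 := by
      have := congrArg Subtype.val h
      exact this
    rw [Submodule.Quotient.mk_eq_zero] at h2
    obtain ⟨y, hy⟩ := h2
    refine ⟨v, y - y i₀ • (fun _ => 1), rfl, ?_, by simp⟩
    rw [Matrix.mulVec_sub, Matrix.mulVec_smul, h1, smul_zero, sub_zero]
    exact hy
  choose v y hv hy hy0 using h0
  refine ⟨fun x => ⟨fun i => (y x i : ZMod 2), by simp [hy0], ?_⟩, ?_⟩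
  · ext i
    have h3 : ((L.mulVec (y x) i : ℤ) : ZMod 2) = 0 := by
      rw [hy]
      simp only [Pi.smul_apply, nsmul_eq_mul, Int.cast_mul]
      simp
      left
      decide
    rw [Pi.zero_apply, ← h3]
    simp [Matrix.mulVec, dotProduct]
  · intro a b hab
    have h4 : ∀ i, ((y a i : ℤ) : ZMod 2) = (y b i : ZMod 2) := fun i =>
      congrFun (congrArg Subtype.val hab) i
    have h5 : ∀ i, ∃ z : ℤ, y a i = y b i + 2 * z := by
      intro i
      have := (ZMod.intCast_eq_intCast_iff_dvd_sub _ _ 2).1 (h4 i)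
      obtain ⟨z, hz⟩ := this
      exact ⟨-z, by push_cast at hz; linarith⟩
    choose z hz using h5
    have h6 : y a = y b + 2 • z := by
      ext i
      simp [hz i]
    have h7 : L.mulVec z = v a - v b := by
      have : 2 • L.mulVec z = 2 • (v a - v b) := by
        rw [smul_sub, ← hy, ← hy, h6, Matrix.mulVec_add, add_sub_cancel_left, Matrix.mulVec_smul]
      ext i
      have h8 := congrFun this i
      simp only [Pi.smul_apply, nsmul_eq_mul] at h8
      have : ((2 : ℕ) : ℤ) ≠ 0 := by norm_num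
      exact mul_left_cancel₀ this h8
    apply Subtype.ext
    apply Subtype.ext
    rw [← hv a, ← hv b, Submodule.Quotient.eq, ← h7]
    exact ⟨z, rfl⟩

theorem ker_to_tor (L : Matrix n n ℤ) (i₀ : n)
    (hL : ∀ x, L.mulVec x = 0 → ∀ i j, x i = x j) :
    ∃ f : Ker2 L i₀ → Tor2 L, Function.Injective f := by
  let l : Ker2 L i₀ → n → ℤ := fun y i => ((y.1 i).val : ℤ)
  have hl : ∀ y i, ((l y i : ℤ) : ZMod 2) = y.1 i := by
    intro y i
    simp [l]
  have h0 : ∀ y : Ker2 L i₀, ∃ v : n → ℤ, L.mulVec (l y) = 2 • v := by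
    intro y
    have h1 : ∀ i, ∃ v : ℤ, L.mulVec (l y) i = 2 * v := by
      intro i
      have h2 : ((L.mulVec (l y) i : ℤ) : ZMod 2) = 0 := by
        rw [← Pi.zero_apply (M := fun _ => ZMod 2) i, ← y.2.2]
        simp only [Matrix.mulVec, dotProduct, Int.cast_sum, Int.cast_mul, hl, Matrix.map_apply]
        rfl
      rw [ZMod.intCast_zmod_eq_zero_iff_dvd] at h2
      obtain ⟨v, hv⟩ := h2
      exact ⟨v, by simpa using hv⟩
    choose v hv using h1
    exact ⟨v, by ext i; simp [hv i]⟩
  choose v hv using h0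
  have hz : ∀ y, 2 • (Submodule.Quotient.mk (v y) : (n → ℤ) ⧸ LinearMap.range L.mulVecLin) = 0 := by
    intro y
    change (Submodule.Quotient.mk (2 • v y) : (n → ℤ) ⧸ LinearMap.range L.mulVecLin) = 0
    rw [Submodule.Quotient.mk_eq_zero, ← hv]
    exact ⟨l y, rfl⟩
  refine ⟨fun y => ⟨⟨Submodule.Quotient.mk (v y), ?_⟩, Subtype.ext (hz y)⟩, ?_⟩
  · exact isOfFinAddOrder_iff_nsmul_eq_zero.2 ⟨2, by norm_num, hz y⟩
  · intro a b hab
    have h1 : (Submodule.Quotient.mk (v a) : (n → ℤ) ⧸ LinearMap.range L.mulVecLin) =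
        Submodule.Quotient.mk (v b) :=
      congrArg (fun x : Tor2 L => (x.1.1 : (n → ℤ) ⧸ LinearMap.range L.mulVecLin)) hab
    rw [Submodule.Quotient.eq] at h1
    obtain ⟨z, hz1⟩ := h1
    have h2 : L.mulVec (l a - l b - 2 • z) = 0 := by
      rw [Matrix.mulVec_sub, Matrix.mulVec_sub, hv, hv, Matrix.mulVec_smul]
      have : L.mulVec z = v a - v b := hz1
      rw [this, smul_sub, sub_self]
    have h3 := hL _ h2
    apply Subtype.ext
    ext i
    have h4 := congrArg (Int.cast : ℤ → ZMod 2) (h3 i i₀)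
    have h5 : ∀ j, (((l a - l b - 2 • z) j : ℤ) : ZMod 2) = a.1 j - b.1 j := by
      intro j
      have h6 : (l a - l b - 2 • z) j = l a j - l b j - 2 * z j := by simp
      have h7 : ((2 : ℤ) : ZMod 2) = 0 := by decide
      rw [h6, Int.cast_sub, Int.cast_sub, Int.cast_mul, hl, hl, h7, zero_mul, sub_zero]
    rw [h5, h5, a.2.1, b.2.1, sub_zero] at h4
    exact sub_eq_zero.1 h4

/-- The order of `K / 2 K` is the order of `K[2]`. -/
theorem card_quot (K : Type) [AddCommGroup K] [Finite K] :
    Nat.card (K ⧸ (nsmulAddMonoidHom 2 : K →+ K).range) = Nat.card {x : K // 2 • x = 0} := by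
  let f : K →+ K := nsmulAddMonoidHom 2
  have h1 : Nat.card (K ⧸ f.range) * Nat.card f.range = Nat.card K := by
    rw [mul_comm]
    exact AddSubgroup.card_mul_index f.range
  have h2 : Nat.card f.ker * Nat.card f.range = Nat.card K := by
    have := AddSubgroup.card_mul_index f.ker
    rw [AddSubgroup.index, Nat.card_congr (QuotientAddGroup.quotientKerEquivRange f).toEquiv] at this
    exact this
  have h3 : Nat.card f.range ≠ 0 := Nat.card_pos.ne'
  have h4 : Nat.card (K ⧸ f.range) = Nat.card f.ker :=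
    Nat.eq_of_mul_eq_mul_right (Nat.pos_of_ne_zero h3) (h1.trans h2.symm)
  rw [h4]
  exact Nat.card_congr (Equiv.subtypeEquivRight fun x => Iff.rfl)

theorem finite_torsion (L : Matrix n n ℤ) :
    Finite (AddCommGroup.torsion ((n → ℤ) ⧸ LinearMap.range L.mulVecLin)) := by
  let Q := (n → ℤ) ⧸ LinearMap.range L.mulVecLin
  let T : Submodule ℤ Q := AddSubgroup.toIntSubmodule (AddCommGroup.torsion Q)
  have : Module.Finite ℤ T := inferInstance
  have h : Finite T := by
    apply Module.finite_of_fg_torsion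
    intro x
    have hx : IsOfFinAddOrder (x : Q) := x.2
    obtain ⟨k, hk, hkx⟩ := isOfFinAddOrder_iff_nsmul_eq_zero.1 hx
    refine ⟨⟨(k : ℤ), mem_nonZeroDivisors_of_ne_zero (by exact_mod_cast hk.ne')⟩, ?_⟩
    apply Subtype.ext
    change (k : ℤ) • (x : Q) = 0
    rw [natCast_zsmul]
    exact hkx
  exact h

end general

/-! ### The Laplacian -/

lemma vec_add_self {r : ℕ} (u : Vec r) : u + u = 0 := by
  ext i
  exact add_self (u i)

lemma add_eq_iff {r : ℕ} (w v w' : Vec r) : w + v = w' ↔ v = w + w' := by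
  constructor
  · rintro rfl
    rw [← add_assoc, vec_add_self, zero_add]
  · rintro rfl
    rw [← add_assoc, vec_add_self, zero_add]

lemma laplacian_mulVec {r : ℕ} (M : Multiset (Vec r)) (h0 : (0 : Vec r) ∉ M) (x : Vec r → ℤ)
    (w : Vec r) : (laplacian M).mulVec x w = (M.map fun v => x w - x (w + v)).sum := by
  induction M using Multiset.induction_on with
  | empty =>
    simp [Matrix.mulVec, dotProduct, laplacian]
  | cons v M ih =>
    have hv : v ≠ 0 := fun h => h0 (by rw [h]; exact Multiset.mem_cons_self _ _)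
    have hM : (0 : Vec r) ∉ M := fun h => h0 (Multiset.mem_cons_of_mem h)
    rw [Multiset.map_cons, Multiset.sum_cons, ← ih hM]
    have h1 : ∀ w', laplacian (v ::ₘ M) w w' = laplacian M w w' +
        ((if w' = w then 1 else 0) - (if w' = w + v then 1 else 0)) := by
      intro w'
      unfold laplacian
      by_cases h : w = w'
      · have h2 : ¬ w = w + v := by
          intro h2
          exact hv (by simpa using h2)
        subst h
        simp [h2]
      · have h3 : ¬ w' = w := fun h' => h h'.symm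
        by_cases h4 : w' = w + v
        · subst h4
          simp [hv]
          ring
        · have h5 : ¬ w + v = w' := fun h' => h4 h'.symm
          simp [h, h3, h4, h5]
    simp only [Matrix.mulVec, dotProduct, h1, add_mul, sub_mul, ite_mul, one_mul, zero_mul,
      Finset.sum_add_distrib, Finset.sum_sub_distrib, Finset.sum_ite_eq', Finset.mem_univ, if_true]
    ring

lemma laplacian_one {r : ℕ} (M : Multiset (Vec r)) (h0 : (0 : Vec r) ∉ M) :
    (laplacian M).mulVec (fun _ => 1) = 0 := by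
  ext w
  rw [laplacian_mulVec M h0]
  simp

lemma sum_ms_comm {α β : Type} [Fintype β] (M : Multiset α) (F : α → β → ℤ) :
    (M.map fun v => ∑ w, F v w).sum = ∑ w, (M.map fun v => F v w).sum := by
  induction M using Multiset.induction_on with
  | empty => simp
  | cons v M ih => simp [ih, Finset.sum_add_distrib]

lemma laplacian_ker {r : ℕ} (M : Multiset (Vec r)) (hM : IsGenerator M) (x : Vec r → ℤ)
    (hx : (laplacian M).mulVec x = 0) : ∀ i j, x i = x j := by
  have h1 : (M.map fun v => ∑ w, (x w - x (w + v)) ^ 2).sum = 0 := by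
    have h2 : ∀ v, ∑ w, (x w - x (w + v)) ^ 2 = 2 * ∑ w, x w * (x w - x (w + v)) := by
      intro v
      have h3 : ∑ w, x (w + v) ^ 2 = ∑ w, x w ^ 2 :=
        Equiv.sum_comp (Equiv.addRight v) (fun w => x w ^ 2)
      have h4 : ∑ w, (x w - x (w + v)) ^ 2 =
          ∑ w, x w ^ 2 - 2 * ∑ w, x w * x (w + v) + ∑ w, x (w + v) ^ 2 := by
        rw [Finset.mul_sum, ← Finset.sum_sub_distrib, ← Finset.sum_add_distrib]
        exact Finset.sum_congr rfl fun w _ => by ring
      have h5 : ∑ w, x w * (x w - x (w + v)) = ∑ w, x w ^ 2 - ∑ w, x w * x (w + v) := by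
        rw [← Finset.sum_sub_distrib]
        exact Finset.sum_congr rfl fun w _ => by ring
      rw [h4, h3, h5]
      ring
    have h6 : (M.map fun v => ∑ w, (x w - x (w + v)) ^ 2).sum =
        2 * ∑ w, x w * (laplacian M).mulVec x w := by
      simp only [h2, laplacian_mulVec M hM.1]
      rw [Multiset.sum_map_mul_left]
      congr 1
      have h7 : ∀ w, x w * (M.map fun v => x w - x (w + v)).sum =
          (M.map fun v => x w * (x w - x (w + v))).sum := fun w =>
        (Multiset.sum_map_mul_left).symm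
      simp only [h7]
      exact sum_ms_comm M _
    rw [h6, hx]
    simp
  have h8 : ∀ v ∈ M, ∀ w, x (w + v) = x w := by
    intro v hv
    have h9 : ∑ w, (x w - x (w + v)) ^ 2 ≤ 0 := by
      rw [← h1]
      refine Multiset.single_le_sum ?_ _ (Multiset.mem_map_of_mem _ hv)
      intro z hz
      obtain ⟨v', -, rfl⟩ := Multiset.mem_map.1 hz
      exact Finset.sum_nonneg fun w _ => sq_nonneg _
    have h10 : ∑ w, (x w - x (w + v)) ^ 2 = 0 :=
      le_antisymm h9 (Finset.sum_nonneg fun w _ => sq_nonneg _)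
    rw [Finset.sum_eq_zero_iff_of_nonneg fun w _ => sq_nonneg _] at h10
    intro w
    have h11 := h10 w (Finset.mem_univ w)
    have h12 := pow_eq_zero_iff (two_ne_zero) |>.1 h11
    linarith
  have h13 : ∀ u ∈ Submodule.span (ZMod 2) {v : Vec r | v ∈ M}, ∀ w, x (w + u) = x w := by
    intro u hu
    induction hu using Submodule.span_induction with
    | mem u hu => exact h8 u hu
    | zero => intro w; rw [add_zero]
    | add u v _ _ ihu ihv => intro w; rw [← add_assoc, ihv, ihu]
    | smul c u _ ih =>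
      intro w
      have hc : c = 0 ∨ c = 1 := by
        revert c
        decide
      rcases hc with rfl | rfl
      · rw [zero_smul, add_zero]
      · rw [one_smul, ih]
  intro i j
  have h14 := h13 (i + j) (by rw [hM.2]; trivial) i
  rw [← add_assoc, vec_add_self, zero_add] at h14
  exact h14.symm

/-! ### The 2-rank as the dimension of a kernel -/

/-- The Laplacian modulo two. -/
def lap2 {r : ℕ} (M : Multiset (Vec r)) : Matrix (Vec r) (Vec r) (ZMod 2) :=
  (laplacian M).map (Int.castRingHom (ZMod 2))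

lemma lap2_one {r : ℕ} (M : Multiset (Vec r)) (h0 : (0 : Vec r) ∉ M) (c : ZMod 2) :
    (lap2 M).mulVec (fun _ => c) = 0 := by
  have h1 : (lap2 M).mulVec (fun _ => 1) = 0 := by
    ext w
    have h2 := congrArg (Int.castRingHom (ZMod 2)) (congrFun (laplacian_one M h0) w)
    simp only [Matrix.mulVec, dotProduct, map_sum, map_mul, map_one, Pi.zero_apply, map_zero] at h2
    exact h2
  have h3 : (fun _ => c : Vec r → ZMod 2) = c • (fun _ => 1) := by
    ext w
    simp
  rw [h3, Matrix.mulVec_smul, h1, smul_zero]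

theorem evenRank_add_one {r : ℕ} (M : Multiset (Vec r)) (hM : IsGenerator M) :
    evenRank M + 1 = Module.finrank (ZMod 2) (LinearMap.ker (lap2 M).mulVecLin) := by
  have hfin : Finite (Sandpile M) := finite_torsion (laplacian M)
  have h1 : Nat.card (Sandpile M ⧸ (nsmulAddMonoidHom 2 : Sandpile M →+ Sandpile M).range) =
      Nat.card (Tor2 (laplacian M)) := card_quot (Sandpile M)
  have h2 : Nat.card (Tor2 (laplacian M)) = Nat.card (Ker2 (laplacian M) 0) := by
    obtain ⟨f, hf⟩ := tor_to_ker (laplacian M) 0 (laplacian_one M hM.1)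
    obtain ⟨g, hg⟩ := ker_to_tor (laplacian M) 0 (laplacian_ker M hM)
    exact le_antisymm (Nat.card_le_card_of_injective f hf) (Nat.card_le_card_of_injective g hg)
  have h3 : Nat.card (Ker2 (laplacian M) 0) * 2 =
      Nat.card (LinearMap.ker (lap2 M).mulVecLin) := by
    have h4 : Nat.card (Ker2 (laplacian M) 0 × ZMod 2) = Nat.card (Ker2 (laplacian M) 0) * 2 := by
      rw [Nat.card_prod, Nat.card_zmod]
    rw [← h4]
    apply Nat.card_congr
    refine ⟨fun p => ⟨p.1.1 + fun _ => p.2, ?_⟩,
      fun y => ⟨⟨y.1 - fun _ => y.1 0, ?_, ?_⟩, y.1 0⟩, ?_, ?_⟩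
    · rw [LinearMap.mem_ker]
      change (lap2 M).mulVec _ = 0
      rw [Matrix.mulVec_add, lap2_one M hM.1, add_zero]
      exact p.1.2.2
    · simp
    · have h5 : (lap2 M).mulVec y.1 = 0 := y.2
      change (lap2 M).mulVec _ = 0
      rw [Matrix.mulVec_sub, lap2_one M hM.1, h5, sub_zero]
    · rintro ⟨⟨y, hy0, hy⟩, c⟩
      simp [hy0]
    · intro y
      apply Subtype.ext
      simp
  have h5 : Nat.card (LinearMap.ker (lap2 M).mulVecLin) =
      2 ^ Module.finrank (ZMod 2) (LinearMap.ker (lap2 M).mulVecLin) := by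
    rw [Module.natCard_eq_pow_finrank (K := ZMod 2), Nat.card_zmod]
  unfold evenRank
  rw [h1, h2]
  rw [h5] at h3
  obtain ⟨k, hk⟩ : ∃ k, Module.finrank (ZMod 2) (LinearMap.ker (lap2 M).mulVecLin) = k + 1 := by
    apply Nat.exists_eq_succ_of_ne_zero
    intro h
    rw [h] at h3
    omega
  rw [hk] at h3 ⊢
  rw [pow_succ] at h3
  have h6 : Nat.card (Ker2 (laplacian M) 0) = 2 ^ k := by omega
  rw [h6, Nat.log_pow (by norm_num)]

/-- The entries of the Laplacian modulo two. -/
def ent {r : ℕ} (M : Multiset (Vec r)) (u : Vec r) : ZMod 2 :=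
  if u = 0 then (M.card : ZMod 2) else (M.count u : ZMod 2)

lemma lap2_apply {r : ℕ} (M : Multiset (Vec r)) (u v : Vec r) : lap2 M u v = ent M (u + v) := by
  unfold lap2 ent laplacian
  rw [Matrix.map_apply]
  by_cases h : u = v
  · subst h
    rw [if_pos rfl, if_pos (vec_add_self u)]
    simp
  · have h1 : u + v ≠ 0 := by
      intro h1
      apply h
      have h2 : u + (u + v) = u + 0 := by rw [h1]
      rw [← add_assoc, vec_add_self, zero_add, add_zero] at h2
      exact h2.symm
    rw [if_neg h, if_neg h1]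
    have h2 : M.countP (fun v' => u + v' = v) = M.count (u + v) := by
      unfold Multiset.count
      congr 1
      ext v'
      rw [add_eq_iff, eq_comm]
    rw [h2]
    have h3 : ∀ z : ZMod 2, -z = z := by decide
    simp [h3]

lemma parity {r : ℕ} (hr : 1 ≤ r) (M : Multiset (Vec r)) (hM : IsGenerator M)
    (h : ∃ s : Vec r, ent M s = 0) : Odd (evenRank M) := by
  obtain ⟨s, hs⟩ := h
  let N : Matrix (Vec r) (Vec r) (ZMod 2) := fun u v => ent M (s + u + v)
  obtain ⟨ρ, hρ, hρ'⟩ := even_rank N (fun i j => by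
    change ent M (s + i + j) = ent M (s + j + i)
    rw [add_assoc, add_assoc, add_comm i j]) (fun i => by
    change ent M (s + i + i) = 0
    rw [add_assoc, vec_add_self, add_zero, hs])
  let e : (Vec r → ZMod 2) ≃ₗ[ZMod 2] (Vec r → ZMod 2) :=
    LinearEquiv.funCongrLeft (ZMod 2) (ZMod 2) (Equiv.addLeft s)
  have h1 : N.mulVecLin = (lap2 M).mulVecLin ∘ₗ (e : (Vec r → ZMod 2) →ₗ[ZMod 2] _) := by
    apply LinearMap.ext
    intro y
    ext u
    change ∑ v, N u v * y v = ∑ v, lap2 M u v * y (s + v)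
    rw [← Equiv.sum_comp (Equiv.addLeft s) (fun v => N u v * y v)]
    apply Finset.sum_congr rfl
    intro v _
    change ent M (s + u + (s + v)) * y (s + v) = _
    rw [lap2_apply]
    congr 2
    have : s + u + (s + v) = s + s + (u + v) := by abel
    rw [this, vec_add_self, zero_add]
  have h2 : Module.finrank (ZMod 2) (LinearMap.ker N.mulVecLin) =
      Module.finrank (ZMod 2) (LinearMap.ker (lap2 M).mulVecLin) := by
    rw [h1, LinearMap.ker_comp, ← LinearEquiv.finrank_map_eq e,
      Submodule.map_comap_eq_of_surjective e.surjective]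
  rw [h2, ← evenRank_add_one M hM] at hρ'
  have h3 : Fintype.card (Vec r) = 2 ^ r := by simp
  rw [h3] at hρ'
  have h4 : Even (2 ^ r) := (Nat.even_pow.2 ⟨even_two, by omega⟩)
  rw [← hρ'] at h4
  obtain ⟨a, ha⟩ := hρ
  obtain ⟨b, hb⟩ := h4
  rw [Nat.odd_iff]
  omega

lemma all_one {r : ℕ} (M : Multiset (Vec r)) (hM : IsGenerator M)
    (h : ∀ s : Vec r, ent M s = 1) : evenRank M = 2 ^ r - 2 := by
  have h1 := evenRank_add_one M hM
  let σ : (Vec r → ZMod 2) →ₗ[ZMod 2] ZMod 2 := ∑ i, LinearMap.proj i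
  have hσ : ∀ y, σ y = ∑ i, y i := by
    intro y
    simp [σ]
  have h2 : LinearMap.ker (lap2 M).mulVecLin = LinearMap.ker σ := by
    ext y
    rw [LinearMap.mem_ker, LinearMap.mem_ker, hσ]
    change (lap2 M).mulVec y = 0 ↔ _
    have h3 : ∀ u, (lap2 M).mulVec y u = ∑ i, y i := by
      intro u
      simp only [Matrix.mulVec, dotProduct, lap2_apply, h, one_mul]
    constructor
    · intro h4
      rw [← h3 0, h4]
      rfl
    · intro h4
      ext u
      rw [h3, h4]
      rfl
  have h3 : σ ≠ 0 := by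
    intro h4
    have h5 := hσ (Pi.single 0 1)
    rw [h4, Finset.sum_pi_single', if_pos (Finset.mem_univ _), LinearMap.zero_apply] at h5
    exact zero_ne_one h5
  have h4 := Module.Dual.finrank_ker_add_one_of_ne_zero h3
  rw [← h2, ← h1, Module.finrank_fintype_fun_eq_card] at h4
  have h5 : Fintype.card (Vec r) = 2 ^ r := by simp
  omega

lemma sum_ent {r : ℕ} (M : Multiset (Vec r)) (h0 : (0 : Vec r) ∉ M) : ∑ u, ent M u = 0 := by
  have h1 := congrFun (lap2_one M h0 1) 0
  simp only [Matrix.mulVec, dotProduct, lap2_apply, zero_add, mul_one, Pi.zero_apply] at h1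
  exact h1

lemma all_odd {r : ℕ} (hr : 1 ≤ r) (M : Multiset (Vec r)) (hM : IsGenerator M)
    (h : ∀ u : Vec r, u ≠ 0 → Odd (M.count u)) : evenRank M = 2 ^ r - 2 := by
  apply all_one M hM
  have h1 : ∀ u : Vec r, u ≠ 0 → ent M u = 1 := by
    intro u hu
    unfold ent
    rw [if_neg hu]
    exact ZMod.natCast_eq_one_iff_odd.2 (h u hu)
  intro s
  by_cases hs : s = 0
  · subst hs
    have h2 := sum_ent M hM.1
    rw [← Finset.add_sum_erase _ _ (Finset.mem_univ (0 : Vec r))] at h2
    rw [Finset.sum_congr rfl (fun u hu => h1 u (Finset.ne_of_mem_erase hu)), Finset.sum_const,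
      Finset.card_erase_of_mem (Finset.mem_univ _), Finset.card_univ] at h2
    have h3 : Fintype.card (Vec r) = 2 ^ r := by simp
    rw [h3, nsmul_eq_mul, mul_one] at h2
    have h4 : Odd (2 ^ r - 1) := by
      obtain ⟨k, rfl⟩ : ∃ k, r = k + 1 := ⟨r - 1, by omega⟩
      rw [pow_succ]
      have : 0 < 2 ^ k := by positivity
      exact ⟨2 ^ k - 1, by omega⟩
    rw [ZMod.natCast_eq_one_iff_odd.2 h4] at h2
    have h5 : ∀ z : ZMod 2, z + 1 = 0 → z = 1 := by decide
    exact h5 _ h2
  · exact h1 s hs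

/-! ### Equal valuations force odd multiplicities -/

/-- The character `(-1) ^ (u · v)`. -/
def chi {r : ℕ} (u v : Vec r) : ℤ := if u ⬝ᵥ v = 0 then 1 else -1

lemma chi_add {r : ℕ} (u v w : Vec r) : chi u (v + w) = chi u v * chi u w := by
  unfold chi
  rw [dotProduct_add]
  have h : ∀ a b : ZMod 2, (if a + b = 0 then (1 : ℤ) else -1) =
      (if a = 0 then 1 else -1) * (if b = 0 then 1 else -1) := by decide
  exact h _ _

lemma sum_chi {r : ℕ} (w : Vec r) (hw : w ≠ 0) : ∑ u : Vec r, chi u w = 0 := by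
  obtain ⟨i, hi⟩ : ∃ i, w i ≠ 0 := by
    by_contra hc
    push Not at hc
    exact hw (funext hc)
  have hi1 : w i = 1 := by
    have : ∀ z : ZMod 2, z ≠ 0 → z = 1 := by decide
    exact this _ hi
  have key : ∀ u : Vec r, (u + Pi.single i 1) ⬝ᵥ w = u ⬝ᵥ w + 1 := by
    intro u
    rw [add_dotProduct, single_dotProduct, hi1, one_mul]
  apply Finset.sum_involution (fun u _ => u + Pi.single i 1)
  · intro u _
    unfold chi
    rw [key]
    have h : ∀ a : ZMod 2, (if a = 0 then (1 : ℤ) else -1) + (if a + 1 = 0 then 1 else -1) = 0 := by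
      decide
    exact h _
  · intro u _ _ h
    have h1 := congrFun h i
    simp at h1
  · intro u _
    rw [add_assoc, vec_add_self, add_zero]
  · intro u _
    exact Finset.mem_univ _

lemma sum_chi_zero {r : ℕ} : ∑ u : Vec r, chi u 0 = 2 ^ r := by
  simp [chi]

lemma eigenvalue_eq {r : ℕ} (M : Multiset (Vec r)) (u : Vec r) :
    (eigenvalue M u : ℤ) = (M.map fun v => 1 - chi u v).sum := by
  unfold eigenvalue
  induction M using Multiset.induction_on with
  | empty => simp
  | cons v M ih =>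
    rw [Multiset.map_cons, Multiset.sum_cons, ← ih, Multiset.countP_cons]
    unfold chi
    have h : ∀ a : ZMod 2, (1 - (if a = 0 then (1 : ℤ) else -1)) = 2 * (if a = 1 then 1 else 0) := by
      decide
    rw [h]
    push_cast
    ring

lemma inversion {r : ℕ} (M : Multiset (Vec r)) (w : Vec r) (hw : w ≠ 0) :
    ∑ u : Vec r, (eigenvalue M u : ℤ) * chi u w = -(2 ^ r * (M.count w : ℤ)) := by
  simp only [eigenvalue_eq, ← Multiset.sum_map_mul_right]
  rw [← sum_ms_comm]
  induction M using Multiset.induction_on with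
  | empty => simp
  | cons v M ih =>
    rw [Multiset.map_cons, Multiset.sum_cons, ih, Multiset.count_cons]
    have h1 : ∑ u : Vec r, (1 - chi u v) * chi u w = -(if w = v then 2 ^ r else 0) := by
      simp only [sub_mul, one_mul, ← chi_add, Finset.sum_sub_distrib, sum_chi w hw]
      by_cases h : w = v
      · subst h
        rw [vec_add_self, sum_chi_zero, if_pos rfl, zero_sub]
      · have h2 : v + w ≠ 0 := by
          intro h2
          apply h
          have h3 : v + (v + w) = v + 0 := by rw [h2]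
          rw [← add_assoc, vec_add_self, zero_add, add_zero] at h3
          exact h3
        rw [sum_chi _ h2, if_neg h]
        simp
    rw [h1]
    split_ifs <;> push_cast <;> ring

lemma eigenvalue_ne_zero {r : ℕ} (M : Multiset (Vec r)) (hM : IsGenerator M) (u : Vec r)
    (hu : u ≠ 0) : eigenvalue M u ≠ 0 := by
  intro h
  apply hu
  unfold eigenvalue at h
  have h1 : M.countP (fun v => u ⬝ᵥ v = 1) = 0 := by omega
  rw [Multiset.countP_eq_zero] at h1
  have h2 : ∀ v ∈ M, u ⬝ᵥ v = 0 := by
    intro v hv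
    have h3 : ∀ z : ZMod 2, ¬ z = 1 → z = 0 := by decide
    exact h3 _ (h1 v hv)
  have h4 : ∀ x ∈ Submodule.span (ZMod 2) {v : Vec r | v ∈ M}, u ⬝ᵥ x = 0 := by
    intro x hx
    induction hx using Submodule.span_induction with
    | mem x hx => exact h2 x hx
    | zero => exact dotProduct_zero _
    | add x y _ _ hx hy => rw [dotProduct_add, hx, hy, add_zero]
    | smul c x _ hx => rw [dotProduct_smul, hx, smul_zero]
  ext i
  have h5 := h4 (Pi.single i 1) (by rw [hM.2]; trivial)
  rwa [dotProduct_single, mul_one] at h5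

lemma odd_of_equal {r : ℕ} (hr : 1 ≤ r) (M : Multiset (Vec r)) (hM : IsGenerator M)
    (hg : gcdMult M = 1)
    (h : ∀ u v : Vec r, u ≠ 0 → v ≠ 0 →
      padicValNat 2 (eigenvalue M u) = padicValNat 2 (eigenvalue M v)) :
    ∀ w : Vec r, w ≠ 0 → Odd (M.count w) := by
  -- the common valuation
  obtain ⟨u₀, hu₀⟩ : ∃ u : Vec r, u ≠ 0 := by
    refine ⟨fun _ => 1, fun h0 => ?_⟩
    have := congrFun h0 ⟨0, by omega⟩
    exact one_ne_zero this
  set e := padicValNat 2 (eigenvalue M u₀) with he
  have h1 : ∀ u : Vec r, ∃ o : ℕ, u ≠ 0 → (eigenvalue M u = 2 ^ e * o ∧ Odd o) := by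
    intro u
    by_cases hu : u = 0
    · exact ⟨0, fun h => absurd hu h⟩
    · obtain ⟨k, o, ho, hk⟩ := Nat.exists_eq_two_pow_mul_odd (eigenvalue_ne_zero M hM u hu)
      refine ⟨o, fun _ => ⟨?_, ho⟩⟩
      have h2 : padicValNat 2 (eigenvalue M u) = k := by
        rw [hk, padicValNat.mul (by positivity) (by rintro rfl; simp at ho),
          padicValNat.prime_pow, padicValNat.eq_zero_of_not_dvd, add_zero]
        intro h3
        exact (Nat.not_even_iff_odd.2 ho) (even_iff_two_dvd.2 h3)
      rw [h u u₀ hu hu₀] at h2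
      rw [he, h2]
      exact hk
  choose o ho using h1
  have h0 : eigenvalue M 0 = 0 := by
    unfold eigenvalue
    simp
  have h2 : ∀ w : Vec r, w ≠ 0 → ∃ S : ℤ, Odd S ∧ 2 ^ r * (M.count w : ℤ) = 2 ^ e * S := by
    intro w hw
    have h3 := inversion M w hw
    rw [← Finset.add_sum_erase _ _ (Finset.mem_univ (0 : Vec r)), h0] at h3
    have h4 : ∑ u ∈ univ.erase (0 : Vec r), (eigenvalue M u : ℤ) * chi u w =
        2 ^ e * ∑ u ∈ univ.erase (0 : Vec r), (o u : ℤ) * chi u w := by
      rw [Finset.mul_sum]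
      apply Finset.sum_congr rfl
      intro u hu
      rw [(ho u (Finset.ne_of_mem_erase hu)).1]
      push_cast
      ring
    refine ⟨-∑ u ∈ univ.erase (0 : Vec r), (o u : ℤ) * chi u w, ?_, ?_⟩
    · rw [odd_neg]
      have h5 : (((∑ u ∈ univ.erase (0 : Vec r), (o u : ℤ) * chi u w : ℤ)) : ZMod 2) = 1 := by
        push_cast
        have h6 : ∀ u ∈ univ.erase (0 : Vec r), ((o u : ZMod 2) * ((chi u w : ℤ) : ZMod 2)) = 1 := by
          intro u hu
          have h7 : ((o u : ℕ) : ZMod 2) = 1 :=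
            ZMod.natCast_eq_one_iff_odd.2 (ho u (Finset.ne_of_mem_erase hu)).2
          have h8 : ((chi u w : ℤ) : ZMod 2) = 1 := by
            unfold chi
            split_ifs <;> decide
          rw [h7, h8, one_mul]
        rw [Finset.sum_congr rfl h6, Finset.sum_const,
          Finset.card_erase_of_mem (Finset.mem_univ _), Finset.card_univ]
        have h3 : Fintype.card (Vec r) = 2 ^ r := by simp
        rw [h3, nsmul_eq_mul, mul_one]
        have h4 : Odd (2 ^ r - 1) := by
          obtain ⟨k, rfl⟩ : ∃ k, r = k + 1 := ⟨r - 1, by omega⟩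
          rw [pow_succ]
          have : 0 < 2 ^ k := by positivity
          exact ⟨2 ^ k - 1, by omega⟩
        exact ZMod.natCast_eq_one_iff_odd.2 h4
      exact ZMod.intCast_eq_one_iff_odd.1 h5
    · rw [h4, Nat.cast_zero, zero_mul, zero_add] at h3
      linarith
  -- `e ≤ r`: otherwise all multiplicities are even
  have h3 : e ≤ r := by
    by_contra hc
    push Not at hc
    have h4 : 2 ∣ gcdMult M := by
      unfold gcdMult
      apply Finset.dvd_gcd
      intro w hw
      have hw0 : w ≠ 0 := fun h => hM.1 (by rw [← h]; exact Multiset.mem_toFinset.1 hw)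
      obtain ⟨S, -, hS⟩ := h2 w hw0
      obtain ⟨k, hk⟩ : ∃ k, e = r + (k + 1) := ⟨e - r - 1, by omega⟩
      rw [hk, pow_add, mul_assoc] at hS
      have h5 := mul_left_cancel₀ (by positivity : (2 : ℤ) ^ r ≠ 0) hS
      have h6 : (2 : ℤ) ∣ (M.count w : ℤ) := ⟨2 ^ k * S, by rw [h5, pow_succ]; ring⟩
      exact_mod_cast h6
    rw [hg] at h4
    omega
  intro w hw
  obtain ⟨S, hS1, hS⟩ := h2 w hw
  obtain ⟨k, hk⟩ : ∃ k, r = e + k := ⟨r - e, by omega⟩
  have h6 : (2 : ℤ) ^ r = 2 ^ e * 2 ^ k := by rw [← pow_add, ← hk]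
  rw [h6, mul_assoc] at hS
  have h5 := mul_left_cancel₀ (by positivity : (2 : ℤ) ^ e ≠ 0) hS
  rw [← h5, Int.odd_mul] at hS1
  exact_mod_cast hS1.2

/-- **Main result.**  Let `M` be a generator multiset on `𝔽₂^r` with `gcd` of the multiplicities one.
If all multiplicities are odd, then `d(M) = 2 ^ r - 2`.  Otherwise `d(M)` is odd.  If all valuations
of the nonzero eigenvalues are equal, then `d(M) = 2 ^ r - 2`. -/
theorem result (r : ℕ) (hr : 1 ≤ r) (M : Multiset (Vec r)) (hM : IsGenerator M)
    (hg : gcdMult M = 1) :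
    ((∀ u : Vec r, u ≠ 0 → Odd (M.count u)) → evenRank M = 2 ^ r - 2) ∧
    ((∃ u : Vec r, u ≠ 0 ∧ Even (M.count u)) → Odd (evenRank M)) ∧
    ((∀ u v : Vec r, u ≠ 0 → v ≠ 0 →
      padicValNat 2 (eigenvalue M u) = padicValNat 2 (eigenvalue M v)) →
        evenRank M = 2 ^ r - 2) := by
  refine ⟨all_odd hr M hM, ?_, fun h => all_odd hr M hM (odd_of_equal hr M hM hg h)⟩
  rintro ⟨u, hu, he⟩
  apply parity hr M hM
  refine ⟨u, ?_⟩
  unfold ent
  rw [if_neg hu]
  exact (ZMod.natCast_eq_zero_iff_even).2 he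

end Pool.Agent.Results.MP_8ee885_co.ParityLaw
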