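import Mathlib
import Pool.Agent.Results.MP_8ee885_co.ParityLaw

/-!
# The valuation criterion for the 2-rank fails

For `r = 2` and the multiplicities `1, 1, 3` the nonzero eigenvalues are `4, 8, 8`, with different
valuations, but `d(M) = 2` is even, since all multiplicities are odd.
-/

set_option autoImplicit false

namespace Pool.Agent.Results.MP_8ee885_co.Disproof

open Pool.Agent.Results.MP_8ee885_co.ParityLaw

/-- The multiset with multiplicities `1, 1, 3`. -/
def M₀ : Multiset (Vec 2) := {![1, 0], ![0, 1], ![1, 1], ![1, 1], ![1, 1]}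

/-- **Main result.**  The negated form of the question: for some `r` and some generator multiset `M`
with `gcd` of the multiplicities one, either the valuations of the nonzero eigenvalues are not all
equal and `d(M)` is even, or they are all equal and `d(M) ≠ 2 ^ r - 2`. -/
theorem result : ∃ r : ℕ, 1 ≤ r ∧ ∃ M : Multiset (Vec r), IsGenerator M ∧ gcdMult M = 1 ∧
    ((¬ (∀ u v : Vec r, u ≠ 0 → v ≠ 0 →
        padicValNat 2 (eigenvalue M u) = padicValNat 2 (eigenvalue M v)) ∧ Even (evenRank M)) ∨
      ((∀ u v : Vec r, u ≠ 0 → v ≠ 0 →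
        padicValNat 2 (eigenvalue M u) = padicValNat 2 (eigenvalue M v)) ∧
        evenRank M ≠ 2 ^ r - 2)) := by
  have hgen : IsGenerator M₀ := by
    refine ⟨by decide, ?_⟩
    rw [eq_top_iff]
    intro v _
    have h1 : ∀ v : Vec 2, v = 0 ∨ v ∈ M₀ := by decide
    rcases h1 v with rfl | h
    · exact Submodule.zero_mem _
    · exact Submodule.subset_span h
  have hgcd : gcdMult M₀ = 1 := by decide
  have hodd : ∀ u : Vec 2, u ≠ 0 → Odd (M₀.count u) := by decide
  refine ⟨2, by norm_num, M₀, hgen, hgcd, Or.inl ⟨?_, ?_⟩⟩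
  · intro h
    have h1 := h ![0, 1] ![1, 1] (by decide) (by decide)
    have h2 : eigenvalue M₀ ![0, 1] = 2 ^ 3 := by decide
    have h3 : eigenvalue M₀ ![1, 1] = 2 ^ 2 := by decide
    rw [h2, h3, padicValNat.prime_pow, padicValNat.prime_pow] at h1
    omega
  · rw [(ParityLaw.result 2 (by norm_num) M₀ hgen hgcd).1 hodd]
    decide

end Pool.Agent.Results.MP_8ee885_co.Disproof
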